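import Mathlib

/-!
# Linearly dependent Teichmüller vectors of non-commutative polynomials

Let `a ≠ b` be two of the variables.  For a factorization `a (a-1) (a-2) = P Q` into a product of
two monic polynomials put `f = P b Q`.  Then `f ^ (n+1) = P z Q`, where
`z = (b a (a-1) (a-2)) ^ n b` does not depend on the factorization.  In `ℤ[X,Y]` the six products
`P(X) Q(Y)` with `P, Q ≠ 1` are linearly dependent:

`X(Y-1)(Y-2) + (X-1)(X-2)Y - 2(X-1)Y(Y-2) - 2X(X-2)(Y-1) + (X-2)Y(Y-1) + X(X-1)(Y-2) = 0`.

Hence the same combination of the six elements `f ^ n` vanishes for every `n ≥ 1`.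
-/

set_option autoImplicit false

namespace Pool.Agent.Results.MP_8dadf2_al.Dependent

universe u

/-- The Teichmüller vector `⟨r⟩ = (r, r^p, r^(p^2), ...)`. -/
def teich {A : Type u} [Monoid A] (p : ℕ) (r : A) : ℕ → A := fun k => r ^ p ^ k

section ring

variable {R : Type u} [Ring R]

/-- left factors -/
def PL (a : R) : Fin 6 → R :=
  ![a, (a - 1) * (a - 2), a - 1, a * (a - 2), a - 2, a * (a - 1)]

/-- right factors -/
def PR (a : R) : Fin 6 → R :=
  ![(a - 1) * (a - 2), a, a * (a - 2), a - 1, a * (a - 1), a - 2]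

/-- the six elements -/
def ff (a b : R) : Fin 6 → R := fun i => PL a i * b * PR a i

/-- the coefficients -/
def cc : Fin 6 → ℤ := ![1, 1, -2, -2, 1, 1]

/-- the middle factor -/
def mid (a b : R) : ℕ → R
  | 0 => b
  | n + 1 => mid a b n * (a * (a - 1) * (a - 2)) * b

lemma PR_mul_PL (a : R) (i : Fin 6) : PR a i * PL a i = a * (a - 1) * (a - 2) := by
  fin_cases i <;> simp [PL, PR] <;> noncomm_ring

lemma ff_pow (a b : R) (i : Fin 6) (n : ℕ) :
    ff a b i ^ (n + 1) = PL a i * mid a b n * PR a i := by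
  induction n with
  | zero => simp [ff, mid]
  | succ n ih =>
    rw [pow_succ, ih, ff, mid, ← PR_mul_PL a i]
    noncomm_ring

lemma relation (a z : R) : ∑ i, cc i • (PL a i * z * PR a i) = 0 := by
  simp only [Fin.sum_univ_succ, Fin.sum_univ_zero, cc, PL, PR]
  simp
  noncomm_ring

lemma map_ff {T : Type*} [Ring T] (φ : R →+* T) (a b : R) (i : Fin 6) :
    φ (ff a b i) = ff (φ a) (φ b) i := by
  have h2 : φ 2 = 2 := map_ofNat φ 2
  fin_cases i <;> simp [ff, PL, PR, h2]

end ring

/-- auxiliary matrices, used to tell the six elements apart -/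
def MA : Matrix (Fin 2) (Fin 2) ℤ := !![3, 0; 0, 5]

/-- auxiliary matrices, used to tell the six elements apart -/
def MB : Matrix (Fin 2) (Fin 2) ℤ := !![1, 1; 1, 1]

/-- an entry of the value at `MA`, `MB` -/
def ent : Fin 6 → ℤ := ![36, 10, 30, 12, 20, 18]

lemma ff_entry (i : Fin 6) : ff MA MB i 0 1 = ent i := by
  have h1 : MA - 1 = !![2, 0; 0, 4] := by decide
  have h2 : MA - 2 = !![1, 0; 0, 3] := by decide
  simp only [ff, PL, PR, h1, h2]
  revert i
  decide

/-- **The Teichmüller vectors of pairwise distinct, nonzero, pairwise non-opposite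
non-commutative polynomials may be linearly dependent**, for every set `S` of variables with at
least two elements and for every odd prime `p`. -/
theorem result (S : Type u) [Nontrivial S] (p : ℕ) (_hp : p.Prime) (_hodd : p ≠ 2) :
    ∃ f : Fin 6 → FreeAlgebra ℤ S, Function.Injective f ∧ (∀ i, f i ≠ 0) ∧
      (∀ i j, f i ≠ -f j) ∧ ¬ LinearIndependent ℤ (fun i => teich p (f i)) := by
  classical
  obtain ⟨x, y, hxy⟩ := exists_pair_ne S
  let a : FreeAlgebra ℤ S := FreeAlgebra.ι ℤ x
  let b : FreeAlgebra ℤ S := FreeAlgebra.ι ℤ y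
  let φ : FreeAlgebra ℤ S →ₐ[ℤ] Matrix (Fin 2) (Fin 2) ℤ :=
    FreeAlgebra.lift ℤ (fun s => if s = x then MA else MB)
  have ha : φ a = MA := by simp [φ, a]
  have hb : φ b = MB := by simp [φ, b, hxy.symm]
  have hφ : ∀ i, φ (ff a b i) 0 1 = ent i := by
    intro i
    have h := map_ff (φ : FreeAlgebra ℤ S →+* Matrix (Fin 2) (Fin 2) ℤ) a b i
    have h' : φ (ff a b i) = ff MA MB i := by
      rw [← ha, ← hb]; exact h
    rw [h', ff_entry]
  refine ⟨ff a b, ?_, ?_, ?_, ?_⟩
  · intro i j hij
    have h := hφ i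
    rw [hij, hφ j] at h
    clear hij
    revert i j
    decide
  · intro i h0
    have h := hφ i
    rw [h0, map_zero, Matrix.zero_apply] at h
    clear h0
    revert i
    decide
  · intro i j hij
    have h := hφ i
    rw [hij, map_neg, Matrix.neg_apply, hφ j] at h
    clear hij
    revert i j
    decide
  · rw [Fintype.linearIndependent_iff]
    intro h
    have h1 := h cc ?_ 0
    · exact absurd h1 (by decide)
    · funext k
      have hpk : p ^ k ≠ 0 := pow_ne_zero _ _hp.ne_zero
      obtain ⟨n, hn⟩ := Nat.exists_eq_succ_of_ne_zero hpk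
      rw [Finset.sum_apply]
      simp only [Pi.smul_apply, teich, hn, Nat.succ_eq_add_one, ff_pow, Pi.zero_apply]
      exact relation a _

end Pool.Agent.Results.MP_8dadf2_al.Dependent
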